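import Pool.Agent.R611.HM.T10

/-!
# All levels of Hensel minimality from 1 to omega are equivalent

Levels are elements of `ℕ∞`, with `⊤` standing for `ω`. The definitions are in
`Pool.Agent.R611.HM.Def`.
-/

set_option autoImplicit false

namespace Pool.Agent.Results.MP_0e4269_lc.LevelsCollapse

open FirstOrder Pool.Agent.R611.HM

universe u

/-- For theories of valued fields of equicharacteristic zero, all levels `1, 2, 3, …, ω` of
h-minimality are equivalent. -/
theorem result : ∀ (L : FirstOrder.Language.{u, u}) (sy : ValSymbols L) (T : L.Theory),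
    IsValuedTheory sy T → ∀ s t : ℕ∞, 1 ≤ s → 1 ≤ t → (HMin sy T s ↔ HMin sy T t) :=
  fun _ _ _ hT _ _ hs ht =>
    ⟨fun h => HMin.of_one hT (h.mono hs) _, fun h => HMin.of_one hT (h.mono ht) _⟩

end Pool.Agent.Results.MP_0e4269_lc.LevelsCollapse
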